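import Pool.Agent.P.MP_0bb74b_gt.Dep.Main
import Pool.Agent.P.MP_0bb74b_gt.Dep.Cell

/-! For `n ≥ 4 k + 1` one nontrivial braid acts trivially on `V^n_{n - 2 j}` for all `j ≤ k`. -/

namespace Pool.Agent.Results.MP_0bb74b_gt.BoundedDepth

open Pool.Agent.P.MP_0bb74b_gt.Dep

theorem result (k n : ℕ) (hk : 1 ≤ k) (hn : 4 * k + 1 ≤ n) :
    ∃ β : Braid n, β ≠ 1 ∧ ∀ (A : ℂˣ) (j : ℕ), A ^ 4 ≠ -1 → j ≤ k → β ∈ kerV A n (n - 2 * j) := by
  obtain ⟨β, h1, h2⟩ := main.{0, 0} k n hk hn
  refine ⟨β, h1, fun A j hA hj => ?_⟩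
  have hm : n ≤ n - 2 * j + 2 * k := by omega
  generalize n - 2 * j = m at hm ⊢
  refine MonoidHom.mem_ker.2 <| h2 ℂ _ A (-A⁻¹ ^ 3) (rhoV A n m) (fun e => hA ?_) (fun i hi => ?_) ?_
  · calc A ^ 4 = A * A ^ 3 := by group
      _ = -A⁻¹ ^ 3 * A ^ 3 := by rw [← e]
      _ = -1 := by simp
  · have := A.ne_zero
    simp only [rhoV_σ A m hi, Algebra.algebraMap_eq_smul_one, add_sub_cancel_left, mul_sub, mul_add,
      smul_mul_assoc, mul_smul_comm, mul_one, eV_sq, Units.val_neg, Units.val_pow_eq_pow_val,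
      Units.val_inv_eq_inv_val]
    unfold loop
    match_scalars
    field_simp
    ring
  · have e : ∀ l : List ℕ, (∀ j ∈ l, 2 * j < n - 1) →
        (l.map fun j => (rhoV A n m (σ n (2 * j))).val - algebraMap ℂ _ (A : ℂ)).prod =
          (A : ℂ)⁻¹ ^ l.length • (l.map fun j => eV (loop A) n m (2 * j)).prod := by
      intro l
      induction l with
      | nil => simp
      | cons i l ih =>
        intro h
        rw [List.map_cons, List.prod_cons, ih fun j hj => h j (List.mem_cons_of_mem _ hj),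
          rhoV_σ A m (h i List.mem_cons_self), Algebra.algebraMap_eq_smul_one, add_sub_cancel_left,
          smul_mul_smul_comm, List.length_cons, pow_succ', List.map_cons, List.prod_cons]
    rw [e _ fun j hj => by have := List.mem_range.1 hj; omega, cups_zero _ (by omega) hm, smul_zero]

end Pool.Agent.Results.MP_0bb74b_gt.BoundedDepth
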