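import Pool.Agent.P.MP_0bb74b_gt.PartX

/-! `B_5` acts faithfully on `V^5_1` on the subgroup generated by high powers of finitely many pairs
of commuting half twists on the first four strands, with pairwise nonzero intersection numbers. -/

namespace Pool.Agent.Results.MP_0bb74b_gt.FourStrandPairs

open Pool.Agent.P.MP_0bb74b_gt

theorem result (A : ℂˣ) (hA : Transcendental ℚ (A : ℂ)) (r : ℕ) (hr : 2 ≤ r) (h : Fin r → B5)
    (hB : ∀ j, h j ∈ Subgroup.closure {σ 0, σ 1, σ 2})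
    (hI : ∀ j k, j ≠ k → inter (cls (h j)) (cls (h k)) ≠ 0) :
    ∃ N₀ : ℕ, ∀ N ≥ N₀,
      ∀ β ∈ Subgroup.closure (⋃ j, {h j * σ 0 ^ N * (h j)⁻¹, h j * σ 2 ^ N * (h j)⁻¹}),
        rho A β = 1 → β = 1 :=
  haveI : Nontrivial (Fin r) := Fin.nontrivial_iff_two_le.2 hr
  partX A hA h hB hI

end Pool.Agent.Results.MP_0bb74b_gt.FourStrandPairs
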