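import Pool.Agent.P.MP_0bb74b_gt.PartD3

/-! `B_5` acts faithfully on `V^5_1` on the subgroup generated by high powers of the three twists of
a pants decomposition and of one half twist in homological general position. -/

namespace Pool.Agent.Results.MP_0bb74b_gt.PantsTwists

open Pool.Agent.P.MP_0bb74b_gt

/-- The algebraic intersection numbers of the class of the half twist `h σ_1 h⁻¹` with the classes
`a 0`, `a 2`, `a 0 + a 2` of the three pants curves are nonzero and have different absolute values. -/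
def General (h : B5) : Prop :=
  inter (a 0) (cls h) ≠ 0 ∧ inter (a 2) (cls h) ≠ 0 ∧ inter (a 0 + a 2) (cls h) ≠ 0 ∧
    |inter (a 0) (cls h)| ≠ |inter (a 2) (cls h)| ∧
    |inter (a 0) (cls h)| ≠ |inter (a 0 + a 2) (cls h)| ∧
    |inter (a 2) (cls h)| ≠ |inter (a 0 + a 2) (cls h)|

/-- The hypothesis can be met. -/
lemma general_example : General ((σ 3)⁻¹ * σ 2 * σ 2 * σ 1) := by
  simp only [General, cls, map_mul, map_inv, sp_σ, Units.val_mul, transv_val, transv_inv_val]
  decide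

theorem result (A : ℂˣ) (hA : Transcendental ℚ (A : ℂ)) (h : B5) (hg : General h) :
    ∃ N₀ : ℕ, ∀ N ≥ N₀,
      ∀ β ∈ Subgroup.closure {σ 0 ^ N, σ 2 ^ N, (σ 0 * σ 1 * σ 2) ^ (4 * N), h * σ 0 ^ N * h⁻¹},
        rho A β = 1 → β = 1 := by
  have e2 : inter (a 2) (cls h) = cls h 3 - cls h 1 := by
    simp [inter, Matrix.mulVec, dotProduct, Fin.sum_univ_four, a, form]; ring
  have e3 : inter (a 0 + a 2) (cls h) = cls h 3 := by
    simp [inter, Matrix.mulVec, dotProduct, Fin.sum_univ_four, a, form]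
  obtain ⟨h1, h2, h3, h4, h5, h6⟩ := hg
  rw [inter_a0] at h1 h4 h5
  rw [e2] at h2 h4 h6
  rw [e3] at h3 h5 h6
  exact partD A hA h h1 h2 h3 (fun e => h4 ((sq_eq_sq_iff_abs_eq_abs _ _).1 e))
    (fun e => h5 ((sq_eq_sq_iff_abs_eq_abs _ _).1 e))
    (fun e => h6 ((sq_eq_sq_iff_abs_eq_abs _ _).1 e))

end Pool.Agent.Results.MP_0bb74b_gt.PantsTwists
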